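import Mathlib
import Pool.Agent.Helper446.Comp

/-!
Computable families of finite blocks of constant size, thinning and doubling, and the density
lemmas used to build a generic descending sequence of such families.
-/

set_option autoImplicit false

namespace Pool.Agent.X43.BF

open Pool.Agent.Helper446.RE Encodable

/-- Total uniformization on `ℕ`. -/
theorem unif_total {α β : Type*} [Primcodable α] [Primcodable β] {r : α → β → Prop}
    (hr : REPred fun x : α × β => r x.1 x.2) (h : ∀ a, ∃ b, r a b) :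
    ∃ f : α → β, Computable f ∧ ∀ a, r a (f a) := by
  obtain ⟨f, hf, h1, h2⟩ := uniformize hr
  refine ⟨fun a => (f a).get ((h1 a).2 (h a)), ?_, fun a => h2 a _ (Part.get_mem _)⟩
  exact hf.of_eq fun a => (Part.some_get _).symm

/-- Iteration of a computable function. -/
theorem iter_comp {h : ℕ → ℕ} (hh : Computable h) (a : ℕ) : Computable fun n => h^[n] a := by
  have h1 := Computable.nat_rec (f := fun n : ℕ => n) (g := fun _ : ℕ => a)
    (h := fun (_ : ℕ) (y : ℕ × ℕ) => h y.2) Computable.id (Computable.const a)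
    (hh.comp (Computable.snd.comp Computable.snd))
  refine h1.of_eq fun n => ?_
  induction n with
  | zero => rfl
  | succ n ih => rw [Function.iterate_succ_apply', ← ih]

/-- An infinite r.e. set contains the range of a strictly increasing computable function. -/
theorem exists_incr {P : ℕ → Prop} (hP : REPred P) (hinf : ∀ N, ∃ n, N ≤ n ∧ P n) :
    ∃ u : ℕ → ℕ, Computable u ∧ StrictMono u ∧ ∀ n, P (u n) := by
  obtain ⟨h, hh, h1⟩ := unif_total (r := fun a b : ℕ => a < b ∧ P b)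
    (and (lt (by fun_prop) (by fun_prop)) (comp hP Computable.snd)) (fun a => by
      obtain ⟨n, hn, h2⟩ := hinf (a + 1)
      exact ⟨n, by omega, h2⟩)
  refine ⟨fun n => h^[n + 1] 0, (iter_comp hh 0).comp Computable.succ, ?_, fun n => ?_⟩
  · refine strictMono_nat_of_lt_succ fun n => ?_
    show h^[n + 1] 0 < h^[n + 1 + 1] 0
    rw [Function.iterate_succ_apply' h (n + 1)]
    exact (h1 _).1
  · show P (h^[n + 1] 0)
    rw [Function.iterate_succ_apply']
    exact (h1 _).2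

/-- A computable increasing family of finite blocks of constant size. -/
structure Cond where
  N : ℕ
  blk : ℕ → List ℕ
  Npos : 0 < N
  comp : Computable blk
  len : ∀ i, (blk i).length = N
  nd : ∀ i, (blk i).Nodup
  inc : ∀ i j, i < j → ∀ x ∈ blk i, ∀ y ∈ blk j, x < y
  mod : ∀ i, ∀ x ∈ blk i, x % 3 = 2

/-- membership in some block -/
def S (p : Cond) (x : ℕ) : Prop := ∃ i, x ∈ p.blk i

theorem exists_mem (p : Cond) (i : ℕ) : ∃ x, x ∈ p.blk i := by
  have h := p.len i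
  have := p.Npos
  cases hb : p.blk i with
  | nil => rw [hb] at h; simp at h; omega
  | cons a l => exact ⟨a, by simp⟩

theorem le_of_mem (p : Cond) : ∀ i x, x ∈ p.blk i → i ≤ x := by
  intro i
  induction i with
  | zero => intro x _; omega
  | succ i ih =>
    intro x hx
    obtain ⟨y, hy⟩ := exists_mem p i
    have := p.inc i (i + 1) (by omega) y hy x hx
    have := ih y hy
    omega

theorem blk_inj (p : Cond) {i j x : ℕ} (hi : x ∈ p.blk i) (hj : x ∈ p.blk j) : i = j := by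
  rcases lt_trichotomy i j with h | h | h
  · exact absurd (p.inc i j h x hi x hj) (lt_irrefl x)
  · exact h
  · exact absurd (p.inc j i h x hj x hi) (lt_irrefl x)

/-- Refinement: every block of `q` is a union of blocks of `p`. -/
def Le (q p : Cond) : Prop := ∀ i, ∃ T : Finset ℕ, ∀ x, x ∈ q.blk i ↔ ∃ t ∈ T, x ∈ p.blk t

theorem Le.refl (p : Cond) : Le p p := fun i => ⟨{i}, fun x => by simp⟩

theorem Le.trans {r q p : Cond} (h1 : Le r q) (h2 : Le q p) : Le r p := by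
  classical
  intro i
  obtain ⟨T, hT⟩ := h1 i
  choose U hU using h2
  refine ⟨T.biUnion U, fun x => ?_⟩
  rw [hT]
  constructor
  · rintro ⟨t, ht, hx⟩
    obtain ⟨u, hu, hxu⟩ := (hU t x).1 hx
    exact ⟨u, Finset.mem_biUnion.2 ⟨t, ht, hu⟩, hxu⟩
  · rintro ⟨u, hu, hx⟩
    obtain ⟨t, ht, hut⟩ := Finset.mem_biUnion.1 hu
    exact ⟨t, ht, (hU t x).2 ⟨u, hut, hx⟩⟩

theorem Le.S {q p : Cond} (h : Le q p) {x : ℕ} (hx : S q x) : S p x := by
  obtain ⟨i, hi⟩ := hx
  obtain ⟨T, hT⟩ := h i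
  obtain ⟨t, -, ht⟩ := (hT x).1 hi
  exact ⟨t, ht⟩

/-- Thinning. -/
def thin (p : Cond) (u : ℕ → ℕ) (hu : Computable u) (hm : StrictMono u) : Cond where
  N := p.N
  blk i := p.blk (u i)
  Npos := p.Npos
  comp := p.comp.comp hu
  len i := p.len _
  nd i := p.nd _
  inc i j h := p.inc _ _ (hm h)
  mod i := p.mod _

theorem thin_le (p : Cond) (u : ℕ → ℕ) (hu : Computable u) (hm : StrictMono u) :
    Le (thin p u hu hm) p := fun i => ⟨{u i}, fun x => by simp [thin]⟩

/-- Doubling. -/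
def dbl (p : Cond) : Cond where
  N := 2 * p.N
  blk i := p.blk (2 * i) ++ p.blk (2 * i + 1)
  Npos := by have := p.Npos; omega
  comp := by
    refine cappend (p.comp.comp ?_) (p.comp.comp ?_) <;> fun_prop
  len i := by rw [List.length_append, p.len, p.len]; ring
  nd i := by
    refine List.Nodup.append (p.nd _) (p.nd _) ?_
    intro x h1 h2
    exact absurd (p.inc _ _ (by omega) x h1 x h2) (lt_irrefl x)
  inc i j h := by
    intro x hx y hy
    rw [List.mem_append] at hx hy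
    rcases hx with hx | hx <;> rcases hy with hy | hy
    · exact p.inc _ _ (by omega) x hx y hy
    · exact p.inc _ _ (by omega) x hx y hy
    · exact p.inc _ _ (by omega) x hx y hy
    · exact p.inc _ _ (by omega) x hx y hy
  mod i := by
    intro x hx
    rw [List.mem_append] at hx
    rcases hx with hx | hx
    · exact p.mod _ x hx
    · exact p.mod _ x hx

theorem dbl_le (p : Cond) : Le (dbl p) p := fun i => ⟨{2 * i, 2 * i + 1}, fun x => by
  simp [dbl]⟩

/-- The base family: singletons `{3 i + 2}`. -/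
def base : Cond where
  N := 1
  blk i := [3 * i + 2]
  Npos := by norm_num
  comp := ccons (by fun_prop) (Computable.const [])
  len i := rfl
  nd i := by simp
  inc i j h := by intro x hx y hy; simp at hx hy; omega
  mod i := by intro x hx; simp at hx; omega

/-! ### Requirements -/

/-- Bounded finite-one functions. -/
def BO (g : ℕ → ℕ) : Prop := ∃ c : ℕ, ∀ x, ∀ Y : Finset ℕ, (∀ y ∈ Y, g y = x) → Y.card ≤ c

/-- The number of preimages of a block is constantly `K`. -/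
def Cst (p : Cond) (g : ℕ → ℕ) (K : ℕ) : Prop :=
  ∀ i, ∃ Y : Finset ℕ, Y.card = K ∧ ∀ y, y ∈ Y ↔ g y ∈ p.blk i

def Free (p : Cond) (g q : ℕ → ℕ) : Prop :=
  ∀ i y, g y ∈ p.blk i → S p (q y) → q y ∈ p.blk i

def Hom (p : Cond) (g q : ℕ → ℕ) : Prop :=
  (∀ i, ∃ y, g y ∈ p.blk i ∧ q y % 3 = 0) ∨ ∀ i y, g y ∈ p.blk i → q y % 3 ≠ 0

def Sup (p : Cond) (v : ℕ → ℕ) (ρ : ℕ) : Prop := ∀ M, ∃ z, M ≤ z ∧ z % 3 = ρ ∧ ¬ S p (v z)

theorem card_T {q p : Cond} {i : ℕ} {T : Finset ℕ}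
    (hT : ∀ x, x ∈ q.blk i ↔ ∃ t ∈ T, x ∈ p.blk t) {F : ℕ → Finset ℕ} {g : ℕ → ℕ}
    (hF : ∀ t y, y ∈ F t ↔ g y ∈ p.blk t) {K : ℕ} (hK : ∀ t, (F t).card = K) :
    ∃ Y : Finset ℕ, Y.card = T.card * K ∧ ∀ y, y ∈ Y ↔ g y ∈ q.blk i := by
  classical
  refine ⟨T.biUnion F, ?_, fun y => ?_⟩
  · rw [Finset.card_biUnion]
    · rw [Finset.sum_congr rfl fun t _ => hK t, Finset.sum_const, smul_eq_mul]
    · intro t _ t' _ hne
      show Disjoint (F t) (F t')
      rw [Finset.disjoint_left]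
      intro y hy hy'
      exact hne (blk_inj p ((hF t y).1 hy) ((hF t' y).1 hy'))
  · rw [Finset.mem_biUnion, hT]
    constructor
    · rintro ⟨t, ht, hy⟩; exact ⟨t, ht, (hF t y).1 hy⟩
    · rintro ⟨t, ht, hy⟩; exact ⟨t, ht, (hF t y).2 hy⟩

theorem N_eq {q p : Cond} {i : ℕ} {T : Finset ℕ}
    (hT : ∀ x, x ∈ q.blk i ↔ ∃ t ∈ T, x ∈ p.blk t) : q.N = T.card * p.N := by
  obtain ⟨Y, hY, hY2⟩ := card_T hT (F := fun t => (p.blk t).toFinset) (g := id)
    (fun t y => by simp) (K := p.N) (fun t => by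
      rw [List.toFinset_card_of_nodup (p.nd t), p.len])
  rw [← hY]
  have : Y = (q.blk i).toFinset := by
    ext y; rw [hY2]; simp
  rw [this, List.toFinset_card_of_nodup (q.nd i), q.len]

theorem Cst.mono {q p : Cond} (h : Le q p) {g : ℕ → ℕ} {K : ℕ} (hc : Cst p g K) :
    ∃ K', Cst q g K' ∧ K' * p.N = K * q.N := by
  choose F hF1 hF2 using hc
  obtain ⟨T0, hT0⟩ := h 0
  refine ⟨T0.card * K, fun i => ?_, ?_⟩
  · obtain ⟨T, hT⟩ := h i
    have h1 := N_eq hT0
    have h2 := N_eq hT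
    have h3 : T.card = T0.card := by
      have := p.Npos
      exact Nat.eq_of_mul_eq_mul_right this (h2.symm.trans h1)
    rw [← h3]
    exact card_T hT hF2 hF1
  · rw [N_eq hT0]; ring

theorem Free.mono {q p : Cond} (h : Le q p) {g r : ℕ → ℕ} (hc : Free p g r) : Free q g r := by
  intro i y hy hs
  obtain ⟨j, hj⟩ := hs
  obtain ⟨T, hT⟩ := h i
  obtain ⟨t, ht, hy2⟩ := (hT _).1 hy
  exact (hT _).2 ⟨t, ht, hc t y hy2 (h.S ⟨j, hj⟩)⟩

theorem Hom.mono {q p : Cond} (h : Le q p) {g r : ℕ → ℕ} (hc : Hom p g r) : Hom q g r := by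
  rcases hc with hc | hc
  · left
    intro i
    obtain ⟨T, hT⟩ := h i
    obtain ⟨x, hx⟩ := exists_mem q i
    obtain ⟨t, ht, -⟩ := (hT x).1 hx
    obtain ⟨y, hy, hy2⟩ := hc t
    exact ⟨y, (hT _).2 ⟨t, ht, hy⟩, hy2⟩
  · right
    intro i y hy
    obtain ⟨T, hT⟩ := h i
    obtain ⟨t, -, hy2⟩ := (hT _).1 hy
    exact hc t y hy2

theorem Sup.mono {q p : Cond} (h : Le q p) {v : ℕ → ℕ} {ρ : ℕ} (hc : Sup p v ρ) :
    Sup q v ρ := by
  intro M
  obtain ⟨z, h1, h2, h3⟩ := hc M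
  exact ⟨z, h1, h2, fun h4 => h3 (h.S h4)⟩

/-! ### Density -/

theorem Z_re (p : Cond) {g : ℕ → ℕ} (hg : Computable g) (k : ℕ) :
    REPred fun i : ℕ => ∃ L : List ℕ, L.Nodup ∧ L.length = k ∧ ∀ y ∈ L, g y ∈ p.blk i := by
  refine ex (p := fun (i : ℕ) (L : List ℕ) => L.Nodup ∧ L.length = k ∧ ∀ y ∈ L, g y ∈ p.blk i) ?_
  refine and (cp_nodup Computable.snd) (and (eq ?_ (Computable.const k)) ?_)
  · exact Computable.list_length.comp Computable.snd
  · refine all_mem (p := fun (x : ℕ × List ℕ) y => g y ∈ p.blk x.1) ?_ Computable.snd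
    exact mem_list (hg.comp Computable.snd)
      (p.comp.comp (Computable.fst.comp Computable.fst))

theorem dens_cst (p : Cond) {g : ℕ → ℕ} (hg : Computable g) (hb : BO g) :
    ∃ q, Le q p ∧ ∃ K, Cst q g K := by
  classical
  obtain ⟨c, hc⟩ := hb
  set Z : ℕ → ℕ → Prop := fun k i => ∃ L : List ℕ, L.Nodup ∧ L.length = k ∧
    ∀ y ∈ L, g y ∈ p.blk i with hZ
  -- some `k` has finitely many `i` with `Z k i`
  have hfin : ∃ k, ¬ ∀ N, ∃ i, N ≤ i ∧ Z k i := by
    refine ⟨p.N * c + 1, fun h => ?_⟩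
    obtain ⟨i, -, L, h1, h2, h3⟩ := h 0
    have h4 : L.toFinset.card ≤ c * (p.blk i).toFinset.card := by
      refine Finset.card_le_mul_card_image_of_maps_to (f := g) ?_ c ?_
      · intro y hy
        simpa using h3 y (by simpa using hy)
      · intro x _
        exact hc x _ (fun y hy => (Finset.mem_filter.1 hy).2)
    rw [List.toFinset_card_of_nodup h1, List.toFinset_card_of_nodup (p.nd i), p.len, h2,
      mul_comm] at h4
    omega
  obtain ⟨k, hk1, hk2⟩ : ∃ k, (∀ N, ∃ i, N ≤ i ∧ Z k i) ∧ ¬ ∀ N, ∃ i, N ≤ i ∧ Z (k + 1) i := by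
    have h0 := Nat.find_spec hfin
    have hpos : Nat.find hfin ≠ 0 := by
      intro h
      rw [h] at h0
      exact h0 fun N => ⟨N, le_rfl, [], List.nodup_nil, rfl, by simp⟩
    obtain ⟨k, hk⟩ := Nat.exists_eq_succ_of_ne_zero hpos
    refine ⟨k, not_not.1 (Nat.find_min hfin (by omega)), ?_⟩
    rw [hk] at h0
    exact h0
  push Not at hk2
  obtain ⟨B, hB⟩ := hk2
  obtain ⟨u, hu, hm, hP⟩ := exists_incr (P := fun i => B ≤ i ∧ Z k i)
    (and (le (Computable.const B) Computable.id) (Z_re p hg k)) (fun N => by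
      obtain ⟨i, hi, h1⟩ := hk1 (N + B)
      exact ⟨i, by omega, by omega, h1⟩)
  refine ⟨thin p u hu hm, thin_le _ _ _ _, k, fun i => ?_⟩
  obtain ⟨h1, L, h2, h3, h4⟩ := hP i
  refine ⟨L.toFinset, by rw [List.toFinset_card_of_nodup h2, h3], fun y => ?_⟩
  rw [List.mem_toFinset]
  refine ⟨fun hy => h4 y hy, fun hy => ?_⟩
  by_contra hcon
  refine hB (u i) h1 ⟨y :: L, List.nodup_cons.2 ⟨hcon, h2⟩, by simp [h3], ?_⟩
  intro z hz
  rcases List.mem_cons.1 hz with rfl | hz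
  · exact hy
  · exact h4 z hz

theorem dens_sup (p : Cond) (v : ℕ → ℕ) (ρ : ℕ) (hρ : ρ < 3) : ∃ q, Le q p ∧ Sup q v ρ := by
  have hm0 : StrictMono fun i : ℕ => 2 * i := fun a b h => by simp only; omega
  have hm1 : StrictMono fun i : ℕ => 2 * i + 1 := fun a b h => by simp only; omega
  set q0 := thin p (fun i => 2 * i) (by fun_prop) hm0 with hq0
  set q1 := thin p (fun i => 2 * i + 1) (by fun_prop) hm1 with hq1
  have hdis : ∀ x, S q0 x → ¬ S q1 x := by
    rintro x ⟨i, hi⟩ ⟨j, hj⟩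
    have := blk_inj p (i := 2 * i) (j := 2 * j + 1) hi hj
    omega
  by_cases h : Sup q0 v ρ
  · exact ⟨q0, thin_le _ _ _ _, h⟩
  · refine ⟨q1, thin_le _ _ _ _, fun M => ?_⟩
    unfold Sup at h
    push Not at h
    obtain ⟨B, hB⟩ := h
    refine ⟨3 * (M + B) + ρ, by omega, by omega, fun h1 => ?_⟩
    exact hdis _ (hB _ (by omega) (by omega)) h1

theorem dens_free (p : Cond) {g r : ℕ → ℕ} (hg : Computable g) (hr : Computable r) {K K' : ℕ}
    (h1 : Cst p g K) (h2 : Cst p r K') : ∃ q, Le q p ∧ Free q g r := by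
  have full : ∀ {g : ℕ → ℕ} {K : ℕ}, Cst p g K → ∀ i (L : List ℕ), L.Nodup → L.length = K →
      (∀ y ∈ L, g y ∈ p.blk i) → ∀ y, g y ∈ p.blk i → y ∈ L := by
    intro g K h i L hnd hlen hL y hy
    obtain ⟨Y, hY1, hY2⟩ := h i
    have h3 : L.toFinset = Y := by
      refine Finset.eq_of_subset_of_card_le ?_ ?_
      · intro z hz
        exact (hY2 z).2 (hL z (List.mem_toFinset.1 hz))
      · rw [hY1, List.toFinset_card_of_nodup hnd, hlen]
    rw [← List.mem_toFinset, h3]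
    exact (hY2 y).2 hy
  set W : (ℕ → ℕ) → (ℕ → ℕ) → ℕ → ℕ → ℕ → Prop := fun g r K i b =>
    ∃ L : List ℕ, (L.Nodup ∧ L.length = K ∧ ∀ y ∈ L, g y ∈ p.blk i) ∧ ∀ y ∈ L, r y < b with hW
  have Wre : ∀ {g r : ℕ → ℕ} (K : ℕ), Computable g → Computable r →
      REPred fun x : ((ℕ × ℕ) × ℕ) => W g r K x.2 x.1.2 := by
    intro g r K hg hr
    refine ex (p := fun (x : (ℕ × ℕ) × ℕ) (L : List ℕ) =>
      (L.Nodup ∧ L.length = K ∧ ∀ y ∈ L, g y ∈ p.blk x.2) ∧ ∀ y ∈ L, r y < x.1.2) ?_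
    refine and (and (cp_nodup Computable.snd) (and (eq ?_ (Computable.const K)) ?_)) ?_
    · exact Computable.list_length.comp Computable.snd
    · refine all_mem (p := fun (x : ((ℕ × ℕ) × ℕ) × List ℕ) y => g y ∈ p.blk x.1.2) ?_
        Computable.snd
      exact mem_list (hg.comp Computable.snd) (p.comp.comp (by fun_prop))
    · refine all_mem (p := fun (x : ((ℕ × ℕ) × ℕ) × List ℕ) y => r y < x.1.1.2) ?_
        Computable.snd
      exact lt (hr.comp Computable.snd) (by fun_prop)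
  have Wex : ∀ {g : ℕ → ℕ} {K : ℕ} (r : ℕ → ℕ), Cst p g K → ∀ i, ∃ b0, ∀ b ≥ b0,
      W g r K i b := by
    intro g K r h i
    obtain ⟨Y, hY1, hY2⟩ := h i
    refine ⟨Y.sup r + 1, fun b hb => ⟨Y.toList, ⟨Y.nodup_toList, ?_, ?_⟩, ?_⟩⟩
    · rw [Finset.length_toList, hY1]
    · intro y hy; exact (hY2 y).1 (Finset.mem_toList.1 hy)
    · intro y hy
      have := Finset.le_sup (f := r) (Finset.mem_toList.1 hy)
      omega
  have hre : REPred fun x : ℕ × ℕ => x.1 < x.2 ∧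
      ∀ i < x.1 + 1, W g r K i x.2 ∧ W r g K' i x.2 := by
    refine and (lt (by fun_prop) (by fun_prop)) ?_
    refine all_lt (p := fun (x : ℕ × ℕ) i => W g r K i x.2 ∧ W r g K' i x.2) ?_ (by fun_prop)
    exact and (Wre K hg hr) (Wre K' hr hg)
  have hex : ∀ a : ℕ, ∃ b, a < b ∧ ∀ i < a + 1, W g r K i b ∧ W r g K' i b := by
    intro a
    have h3 : ∀ᶠ b in Filter.atTop, ∀ i ∈ Set.Iio (a + 1), W g r K i b ∧ W r g K' i b := by
      refine (Filter.eventually_all_finite (Set.finite_Iio _)).2 fun i _ => ?_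
      obtain ⟨b0, hb0⟩ := Wex r h1 i
      obtain ⟨b1, hb1⟩ := Wex g h2 i
      filter_upwards [Filter.eventually_ge_atTop b0, Filter.eventually_ge_atTop b1] with b h4 h5
      exact ⟨hb0 b h4, hb1 b h5⟩
    obtain ⟨b, h4, h5⟩ := (h3.and (Filter.eventually_gt_atTop a)).exists
    exact ⟨b, h5, fun i hi => h4 i hi⟩
  obtain ⟨h, hh, hh2⟩ := unif_total (r := fun a b : ℕ => a < b ∧
      ∀ i < a + 1, W g r K i b ∧ W r g K' i b) hre hex
  set u : ℕ → ℕ := fun n => h^[n] 0 with hu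
  have hus : ∀ n, u (n + 1) = h (u n) := fun n => Function.iterate_succ_apply' h n 0
  have hm : StrictMono u := strictMono_nat_of_lt_succ fun n => by
    rw [hus]; exact (hh2 _).1
  refine ⟨thin p u (iter_comp hh 0) hm, thin_le _ _ _ _, ?_⟩
  have key : ∀ a b, a < b → ∀ i, i = u a → W g r K i (u b) ∧ W r g K' i (u b) := by
    intro a b hab i hi
    obtain ⟨b', rfl⟩ : ∃ b', b = b' + 1 := ⟨b - 1, by omega⟩
    rw [hus]
    refine (hh2 (u b')).2 i ?_
    have := hm.monotone (show a ≤ b' by omega)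
    omega
  rintro i y hy ⟨j, hj⟩
  change r y ∈ p.blk (u j) at hj
  change g y ∈ p.blk (u i) at hy
  show r y ∈ p.blk (u i)
  rcases lt_trichotomy i j with hij | rfl | hij
  · exfalso
    obtain ⟨L, ⟨hL1, hL2, hL3⟩, hL4⟩ := (key i j hij _ rfl).1
    have h3 := hL4 y (full h1 _ L hL1 hL2 hL3 y hy)
    have := le_of_mem p _ _ hj
    omega
  · exact hj
  · exfalso
    obtain ⟨L, ⟨hL1, hL2, hL3⟩, hL4⟩ := (key j i hij _ rfl).2
    have h3 := hL4 y (full h2 _ L hL1 hL2 hL3 y hj)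
    have := le_of_mem p _ _ hy
    omega

theorem dens_hom (p : Cond) {g r : ℕ → ℕ} (hg : Computable g) (hr : Computable r) :
    ∃ q, Le q p ∧ Hom q g r := by
  set P : ℕ → Prop := fun i => ∃ y, g y ∈ p.blk i ∧ r y % 3 = 0 with hP
  have hre : REPred P := by
    refine exN (p := fun i y => g y ∈ p.blk i ∧ r y % 3 = 0) ?_
    refine and (mem_list (hg.comp Computable.snd) (p.comp.comp Computable.fst)) ?_
    refine eq ?_ (Computable.const 0)
    exact Primrec.nat_mod.to_comp.comp (hr.comp Computable.snd) (Computable.const 3)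
  by_cases h : ∀ N, ∃ n, N ≤ n ∧ P n
  · obtain ⟨u, hu, hm, h1⟩ := exists_incr hre h
    exact ⟨thin p u hu hm, thin_le _ _ _ _, Or.inl fun i => h1 i⟩
  · push Not at h
    obtain ⟨B, hB⟩ := h
    refine ⟨thin p (fun i => i + B) (by fun_prop) (fun a b h => by simp only; omega),
      thin_le _ _ _ _, Or.inr fun i y hy h2 => ?_⟩
    exact hB (i + B) (by omega) ⟨y, hy, h2⟩

/-- The combined requirement for a pair of functions. -/
def Req (g r : ℕ → ℕ) (p : Cond) : Prop :=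
  (BO g → ∃ K, Cst p g K) ∧ (Sup p g 0 ∧ Sup p g 1) ∧ (BO g → BO r → Free p g r ∧ Hom p g r)

theorem dens (p : Cond) {g r : ℕ → ℕ} (hg : Computable g) (hr : Computable r) :
    ∃ q, Le q p ∧ Req g r q := by
  obtain ⟨p1, l1, s1⟩ := dens_sup p g 0 (by norm_num)
  obtain ⟨p2, l2, s2⟩ := dens_sup p1 g 1 (by norm_num)
  have s1' := s1.mono l2
  have l : Le p2 p := l2.trans l1
  by_cases hb : BO g
  · obtain ⟨p3, l3, K, h3⟩ := dens_cst p2 hg hb
    by_cases hb2 : BO r
    · obtain ⟨p4, l4, K', h4⟩ := dens_cst p3 hr hb2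
      obtain ⟨K1, h5, -⟩ := h3.mono l4
      obtain ⟨p5, l5, h6⟩ := dens_free p4 hg hr h5 h4
      obtain ⟨p6, l6, h7⟩ := dens_hom p5 hg hr
      have l62 : Le p6 p2 := l6.trans (l5.trans (l4.trans l3))
      obtain ⟨K2, h8, -⟩ := h5.mono (l6.trans l5)
      exact ⟨p6, l62.trans l, fun _ => ⟨K2, h8⟩, ⟨s1'.mono l62, s2.mono l62⟩,
        fun _ _ => ⟨h6.mono l6, h7⟩⟩
    · exact ⟨p3, l3.trans l, fun _ => ⟨K, h3⟩, ⟨s1'.mono l3, s2.mono l3⟩,
        fun _ h => absurd h hb2⟩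
  · exact ⟨p2, l, fun h => absurd h hb, ⟨s1', s2⟩, fun h => absurd h hb⟩

end Pool.Agent.X43.BF
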