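import Mathlib
import Pool.Agent.X43.BF.A

/-!
The generic sequence of block families, and the set it defines.
-/

set_option autoImplicit false

namespace Pool.Agent.X43.BF

open Pool.Agent.Helper446.RE Encodable

theorem exists_enum_fun : ∃ F : ℕ → ℕ → ℕ, (∀ n, Computable (F n)) ∧
    ∀ f : ℕ → ℕ, Computable f → ∃ n, F n = f := by
  classical
  have hcount : Countable {f : ℕ → ℕ // Computable f} := by
    have hc : ∀ f : {f : ℕ → ℕ // Computable f}, ∃ c : Nat.Partrec.Code,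
        c.eval = fun n => Part.some (f.1 n) := by
      intro f
      have h := Nat.Partrec.Code.exists_code.1 (Partrec.nat_iff.1 f.2.partrec)
      exact h
    choose c hc using hc
    refine Function.Injective.countable (f := c) fun f g h => ?_
    have h1 := (hc f).symm.trans ((congrArg Nat.Partrec.Code.eval h).trans (hc g))
    apply Subtype.ext
    funext n
    exact Part.some_inj.1 (congrFun h1 n)
  have hne : Nonempty {f : ℕ → ℕ // Computable f} := ⟨⟨id, Computable.id⟩⟩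
  obtain ⟨F, hF⟩ := exists_surjective_nat {f : ℕ → ℕ // Computable f}
  refine ⟨fun n => (F n).1, fun n => (F n).2, fun f hf => ?_⟩
  obtain ⟨n, hn⟩ := hF ⟨f, hf⟩
  exact ⟨n, by show (F n).1 = f; rw [hn]⟩

/-- Drop the first two blocks. -/
def sh (p : Cond) : Cond := thin p (fun i => i + 2) (by fun_prop) (fun a b h => by simp only; omega)

theorem sh_le (p : Cond) : Le (sh p) p := thin_le _ _ _ _

theorem sh_S {p : Cond} {x : ℕ} (h : S (sh p) x) : ∃ t, 2 ≤ t ∧ x ∈ p.blk t := by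
  obtain ⟨i, hi⟩ := h
  exact ⟨i + 2, by omega, hi⟩

theorem N_le {q p : Cond} (h : Le q p) : p.N ≤ q.N := by
  obtain ⟨T, hT⟩ := h 0
  have h1 := N_eq hT
  have h2 := q.Npos
  have : T.card ≠ 0 := by
    rintro h0
    rw [h0] at h1
    omega
  rw [h1]
  exact Nat.le_mul_of_pos_left _ (by omega)

theorem Req.mono {q p : Cond} (h : Le q p) {g r : ℕ → ℕ} (hr : Req g r p) : Req g r q := by
  obtain ⟨h1, ⟨h2, h3⟩, h4⟩ := hr
  refine ⟨fun hb => ?_, ⟨h2.mono h, h3.mono h⟩, fun hb hb2 => ⟨(h4 hb hb2).1.mono h,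
    (h4 hb hb2).2.mono h⟩⟩
  obtain ⟨K, hK⟩ := h1 hb
  obtain ⟨K', hK', -⟩ := hK.mono h
  exact ⟨K', hK'⟩

/-- Generic sequences. -/
structure Gen (P : ℕ → Cond) : Prop where
  step : ∀ n, Le (P (n + 1)) (sh (P n))
  grow : ∀ n, 2 * (P n).N ≤ (P (n + 1)).N
  req : ∀ g r : ℕ → ℕ, Computable g → Computable r → ∃ n0, ∀ n ≥ n0, Req g r (P n)

theorem le_of_step {P : ℕ → Cond} (h : ∀ n, Le (P (n + 1)) (sh (P n))) {n m : ℕ} (hnm : n ≤ m) :
    Le (P m) (P n) := by
  induction m, hnm using Nat.le_induction with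
  | base => exact Le.refl _
  | succ m _ ih => exact ((h m).trans (sh_le _)).trans ih

theorem exists_gen : ∃ P : ℕ → Cond, Gen P := by
  classical
  obtain ⟨F, hF, hF2⟩ := exists_enum_fun
  choose d hd1 hd2 using fun (n : ℕ) (p : Cond) =>
    dens (sh p) (hF n.unpair.1) (hF n.unpair.2)
  set P : ℕ → Cond := fun n => Nat.rec base (fun n p => dbl (d n p)) n with hP
  have hs : ∀ n, P (n + 1) = dbl (d n (P n)) := fun n => rfl
  have hstep : ∀ n, Le (P (n + 1)) (sh (P n)) := by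
    intro n
    rw [hs]
    exact (dbl_le _).trans (hd1 n (P n))
  refine ⟨P, hstep, fun n => ?_, fun g r hg hr => ?_⟩
  · rw [hs]
    have h1 : (P n).N ≤ (d n (P n)).N := N_le ((hd1 n (P n)).trans (sh_le _))
    show 2 * (P n).N ≤ 2 * (d n (P n)).N
    omega
  · obtain ⟨a, ha⟩ := hF2 g hg
    obtain ⟨b, hb⟩ := hF2 r hr
    refine ⟨Nat.pair a b + 1, fun n hn => ?_⟩
    have h1 : Req g r (P (Nat.pair a b + 1)) := by
      rw [hs]
      have h2 := hd2 (Nat.pair a b) (P (Nat.pair a b))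
      rw [Nat.unpair_pair] at h2
      simp only at h2
      rw [ha, hb] at h2
      exact h2.mono (dbl_le _)
    exact h1.mono (le_of_step hstep hn)

/-- The complement of the set defined by the sequence. -/
def MM (P : ℕ → Cond) : Set ℕ := {x | x % 3 = 0 ∨ ∃ k, x ∈ (P k).blk 0}

section facts

variable {P : ℕ → Cond} (h : Gen P)

include h

theorem Gen.le {n m : ℕ} (hnm : n ≤ m) : Le (P m) (P n) := le_of_step h.step hnm

theorem Gen.S_lt {n m x : ℕ} (hnm : n < m) (hx : S (P m) x) : ∃ t, 2 ≤ t ∧ x ∈ (P n).blk t :=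
  sh_S ((h.step n).S ((h.le (show n + 1 ≤ m from hnm)).S hx))

theorem Gen.blk0 {n k x : ℕ} (hn : S (P n) x) (hk : x ∈ (P k).blk 0) : n ≤ k := by
  by_contra hcon
  obtain ⟨t, ht, hx⟩ := h.S_lt (not_le.1 hcon) hn
  have := blk_inj _ hk hx
  omega

theorem Gen.homog {n i x y : ℕ} (hx : x ∈ (P n).blk i) (hy : y ∈ (P n).blk i)
    (hM : x ∈ MM P) : y ∈ MM P := by
  rcases hM with h0 | ⟨k, hk⟩
  · have := (P n).mod i x hx
    omega
  · right
    refine ⟨k, ?_⟩
    have hnk := h.blk0 ⟨i, hx⟩ hk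
    obtain ⟨T, hT⟩ := h.le hnk 0
    obtain ⟨t, ht, hxt⟩ := (hT x).1 hk
    have := blk_inj _ hx hxt
    subst this
    exact (hT y).2 ⟨i, ht, hy⟩

theorem Gen.fin (n : ℕ) : {x | x ∈ MM P ∧ x % 3 ≠ 0 ∧ ¬ S (P n) x}.Finite := by
  classical
  refine ((Finset.range n).biUnion fun k => ((P k).blk 0).toFinset).finite_toSet.subset ?_
  rintro x ⟨h1 | ⟨k, hk⟩, h2, h3⟩
  · exact absurd h1 h2
  · simp only [Finset.coe_biUnion, Set.mem_iUnion, Finset.mem_coe, Finset.mem_range,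
      List.mem_toFinset]
    refine ⟨k, ?_, hk⟩
    by_contra hcon
    exact h3 ((h.le (not_lt.1 hcon)).S ⟨0, hk⟩)

theorem Gen.le_elt (k : ℕ) : ∀ x ∈ (P k).blk 0, k ≤ x := by
  have key : ∀ k, ∀ x, S (P k) x → k ≤ x := by
    intro k
    induction k with
    | zero => intro x _; omega
    | succ k ih =>
      intro x hx
      obtain ⟨t, ht, hxt⟩ := h.S_lt (Nat.lt_succ_self k) hx
      obtain ⟨y, hy⟩ := exists_mem (P k) 0
      have h1 := (P k).inc 0 t (by omega) y hy x hxt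
      have h2 := ih y ⟨0, hy⟩
      omega
  intro x hx
  exact key k x ⟨0, hx⟩

theorem Gen.unb (n b : ℕ) : ∃ i, b ≤ i ∧ ∃ x ∈ (P n).blk i, x ∈ MM P := by
  classical
  set X := ((Finset.range b).biUnion fun i => ((P n).blk i).toFinset).sup id with hX
  obtain ⟨x, hx⟩ := exists_mem (P (n + X + 1)) 0
  have h1 := h.le_elt _ x hx
  obtain ⟨i, hi⟩ := (h.le (show n ≤ n + X + 1 by omega)).S ⟨0, hx⟩
  refine ⟨i, ?_, x, hi, Or.inr ⟨_, hx⟩⟩
  by_contra hcon
  have h2 : x ≤ X := by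
    refine Finset.le_sup (f := id) (Finset.mem_biUnion.2 ⟨i, ?_, ?_⟩)
    · exact Finset.mem_range.2 (by omega)
    · exact List.mem_toFinset.2 hi
  omega

theorem Gen.blk1 (n x : ℕ) (hx : x ∈ (P n).blk 1) : x ∉ MM P := by
  rintro (h0 | ⟨k, hk⟩)
  · have := (P n).mod 1 x hx
    omega
  · have hnk := h.blk0 ⟨1, hx⟩ hk
    rcases hnk.lt_or_eq with h1 | h1
    · obtain ⟨t, ht, hxt⟩ := h.S_lt h1 ⟨0, hk⟩
      have := blk_inj _ hx hxt
      omega
    · subst h1
      have := blk_inj _ hx hk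
      omega

theorem Gen.N_ge (n : ℕ) : n ≤ (P n).N := by
  induction n with
  | zero => omega
  | succ n ih =>
    have := h.grow n
    have := (P n).Npos
    omega

end facts

end Pool.Agent.X43.BF
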