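import Mathlib
import Pool.Agent.X43.BF.B

/-!
Comparison and rigidity of the sets reducible to the generic set.
-/

set_option autoImplicit false

namespace Pool.Agent.X43.BF

open Pool.Agent.Helper446.RE Encodable

def Red1 (B C : Set ℕ) : Prop :=
  ∃ f : ℕ → ℕ, Computable f ∧ Function.Injective f ∧ ∀ x, x ∈ B ↔ f x ∈ C

def RedB (B C : Set ℕ) : Prop := ∃ f : ℕ → ℕ, Computable f ∧ BO f ∧ ∀ x, x ∈ B ↔ f x ∈ C

theorem BO.comp_inj {g f : ℕ → ℕ} (hg : BO g) (hf : Function.Injective f) :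
    BO fun y => g (f y) := by
  classical
  obtain ⟨c, hc⟩ := hg
  refine ⟨c, fun x Y hY => ?_⟩
  rw [← Finset.card_image_of_injective Y hf]
  refine hc x _ fun y hy => ?_
  obtain ⟨z, hz, rfl⟩ := Finset.mem_image.1 hy
  exact hY z hz

theorem BO.fib_finite {g : ℕ → ℕ} (hg : BO g) (x : ℕ) : {y | g y = x}.Finite := by
  obtain ⟨c, hc⟩ := hg
  by_contra hcon
  obtain ⟨Y, hY1, hY2⟩ := (Set.Infinite.exists_subset_card_eq hcon (c + 1))
  have := hc x Y fun y hy => hY1 hy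
  omega

theorem BO.pre_finite {g : ℕ → ℕ} (hg : BO g) {X : Set ℕ} (hX : X.Finite) :
    {y | g y ∈ X}.Finite := by
  have : {y | g y ∈ X} = ⋃ x ∈ X, {y | g y = x} := by
    ext y; simp
  rw [this]
  exact hX.biUnion fun x _ => hg.fib_finite x

section

variable {P : ℕ → Cond} (h : Gen P)

include h

/-- Rigidity. -/
theorem rigid {B C : Set ℕ} {g g' f : ℕ → ℕ} (hg : Computable g) (bg : BO g)
    (hB : ∀ y, y ∈ B ↔ g y ∉ MM P) (hg' : Computable g') (bg' : BO g')
    (hC : ∀ y, y ∈ C ↔ g' y ∉ MM P) (hf : Computable f) (fi : Function.Injective f)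
    (hBC : ∀ y, y ∈ B ↔ f y ∈ C) :
    ∃ n0, ∀ n ≥ n0, ∀ K K', Cst (P n) g K → Cst (P n) g' K' → K ≤ K' := by
  classical
  have br : BO fun y => g' (f y) := bg'.comp_inj fi
  obtain ⟨n0, hn0⟩ := h.req g (fun y => g' (f y)) hg (hg'.comp hf)
  refine ⟨n0, fun n hn K K' hK hK' => ?_⟩
  obtain ⟨-, -, h3⟩ := hn0 n hn
  obtain ⟨hfree, hhom⟩ := h3 bg br
  rcases hhom with hhom | hhom
  · exfalso
    obtain ⟨y, hy, hy2⟩ := hhom 1
    have h1 := (hB y).2 (h.blk1 n _ hy)
    have h2 := (hC _).1 ((hBC y).1 h1)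
    exact h2 (Or.inl hy2)
  · obtain ⟨b, hb⟩ := ((br.pre_finite (h.fin n)).image g).bddAbove
    obtain ⟨i, hi, x, hx, hxM⟩ := h.unb n (b + 1)
    obtain ⟨Y, hY1, hY2⟩ := hK i
    obtain ⟨Y', hY1', hY2'⟩ := hK' i
    rw [← hY1, ← hY1']
    refine Finset.card_le_card_of_injOn f ?_ fi.injOn
    intro y hy
    have hy' := (hY2 y).1 hy
    have h1 : g y ∈ MM P := h.homog hx hy' hxM
    have h2 : y ∉ B := fun hb => (hB y).1 hb h1
    have h3 : g' (f y) ∈ MM P := by
      by_contra hcon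
      exact h2 ((hBC y).2 ((hC _).2 hcon))
    refine (hY2' _).2 (hfree i y hy' ?_)
    by_contra hS
    have h4 : g y ≤ b := hb ⟨y, ⟨h3, hhom i y hy', hS⟩, rfl⟩
    have h5 := le_of_mem (P n) _ _ hy'
    omega

theorem notS_re (p : Cond) : REPred fun x : ℕ => ¬ S p x := by
  have h1 : REPred fun x : ℕ => ∀ i < x + 1, x ∉ p.blk i := by
    refine all_lt (p := fun x i => x ∉ p.blk i) ?_ (by fun_prop)
    exact not_mem_list Computable.fst (p.comp.comp Computable.snd)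
  refine h1.of_eq fun x => ?_
  constructor
  · rintro h2 ⟨i, hi⟩
    exact h2 i (by have := le_of_mem p _ _ hi; omega) hi
  · intro h2 i _ hi
    exact h2 ⟨i, hi⟩

theorem listing {p : Cond} {g : ℕ → ℕ} (hg : Computable g) {K : ℕ} (hK : Cst p g K) :
    ∃ L : ℕ → List ℕ, Computable L ∧ ∀ i, (L i).Nodup ∧ (L i).length = K ∧
      ∀ y, y ∈ L i ↔ g y ∈ p.blk i := by
  have hre : REPred fun x : ℕ × List ℕ =>
      x.2.Nodup ∧ x.2.length = K ∧ ∀ y ∈ x.2, g y ∈ p.blk x.1 := by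
    refine and (cp_nodup Computable.snd) (and (eq ?_ (Computable.const K)) ?_)
    · exact Computable.list_length.comp Computable.snd
    · refine all_mem (p := fun (x : ℕ × List ℕ) y => g y ∈ p.blk x.1) ?_ Computable.snd
      exact mem_list (hg.comp Computable.snd) (p.comp.comp (by fun_prop))
  have hex : ∀ i : ℕ, ∃ L : List ℕ, L.Nodup ∧ L.length = K ∧ ∀ y ∈ L, g y ∈ p.blk i := by
    intro i
    obtain ⟨Y, hY1, hY2⟩ := hK i
    refine ⟨Y.toList, Y.nodup_toList, ?_, ?_⟩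
    · rw [Finset.length_toList, hY1]
    · intro y hy; exact (hY2 y).1 (Finset.mem_toList.1 hy)
  obtain ⟨L, hL, hL2⟩ := unif_total (r := fun (i : ℕ) (L : List ℕ) =>
    L.Nodup ∧ L.length = K ∧ ∀ y ∈ L, g y ∈ p.blk i) hre hex
  refine ⟨L, hL, fun i => ?_⟩
  obtain ⟨h1, h2, h3⟩ := hL2 i
  refine ⟨h1, h2, fun y => ⟨h3 y, fun hy => ?_⟩⟩
  obtain ⟨Y, hY1, hY2⟩ := hK i
  have h4 : (L i).toFinset = Y := by
    refine Finset.eq_of_subset_of_card_le ?_ ?_
    · intro z hz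
      exact (hY2 z).2 (h3 z (List.mem_toFinset.1 hz))
    · rw [hY1, List.toFinset_card_of_nodup h1, h2]
  rw [← List.mem_toFinset, h4]
  exact (hY2 y).2 hy

theorem mod1 {x : ℕ} (hx : x % 3 = 1) : x ∉ MM P := by
  rintro (h0 | ⟨k, hk⟩)
  · omega
  · have := (P k).mod 0 x hk
    omega

/-- A supply of elements with known status. -/
theorem supply {C : Set ℕ} {p : Cond} {g h' : ℕ → ℕ} (hg : Computable g) (hh : Computable h')
    (bh : BO h') {ρ : ℕ} (hs : Sup p (fun x => g (h' x)) ρ) :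
    ∃ σ : ℕ → ℕ, Computable σ ∧ StrictMono σ ∧ ∀ n, (∃ x, x % 3 = ρ ∧ h' x = σ n) ∧
      ¬ S p (g (σ n)) := by
  refine exists_incr (P := fun z => (∃ x, x % 3 = ρ ∧ h' x = z) ∧ ¬ S p (g z)) ?_ ?_
  · refine and ?_ (comp (notS_re h p) hg)
    refine exN (p := fun z x => x % 3 = ρ ∧ h' x = z) (and (eq ?_ (Computable.const ρ)) ?_)
    · exact Primrec.nat_mod.to_comp.comp Computable.snd (Computable.const 3)
    · exact eq (hh.comp Computable.snd) Computable.fst
  · intro N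
    obtain ⟨b, hb⟩ := (bh.pre_finite (Set.finite_Iio N)).bddAbove
    obtain ⟨z, h1, h2, h3⟩ := hs (b + 1)
    refine ⟨h' z, ?_, ⟨z, h2, rfl⟩, h3⟩
    by_contra hcon
    have : z ≤ b := hb (show h' z < N by omega)
    omega

/-- Comparison. -/
theorem cmp (n : ℕ) {B C : Set ℕ} {g g' h' : ℕ → ℕ} (hg : Computable g)
    (hB : ∀ y, y ∈ B ↔ g y ∉ MM P) (hg' : Computable g')
    (hC : ∀ y, y ∈ C ↔ g' y ∉ MM P) (hh : Computable h') (bh : BO h')
    (hAC : ∀ x, x ∉ MM P ↔ h' x ∈ C) {K K' : ℕ} (hK : Cst (P n) g K) (hK' : Cst (P n) g' K')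
    (hle : K ≤ K') (s0 : Sup (P n) (fun x => g' (h' x)) 0)
    (s1 : Sup (P n) (fun x => g' (h' x)) 1) : Red1 B C := by
  classical
  obtain ⟨L, cL, hL⟩ := listing h hg hK
  obtain ⟨L', cL', hL'⟩ := listing h hg' hK'
  obtain ⟨σ0, c0, m0, h0⟩ := supply h (C := C) hg' hh bh s0
  obtain ⟨σ1, c1, m1, h1⟩ := supply h (C := C) hg' hh bh s1
  have hσ0 : ∀ m, σ0 m ∉ C := by
    intro m hm
    obtain ⟨⟨x, hx, hx2⟩, -⟩ := h0 m
    rw [← hx2] at hm
    exact (hAC x).2 hm (Or.inl hx)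
  have hσ1 : ∀ m, σ1 m ∈ C := by
    intro m
    obtain ⟨⟨x, hx, hx2⟩, -⟩ := h1 m
    rw [← hx2]
    exact (hAC x).1 (mod1 h hx)
  set XL : List ℕ := (h.fin n).toFinset.toList with hXL
  have memXL : ∀ x, x ∈ XL ↔ x ∈ MM P ∧ x % 3 ≠ 0 ∧ ¬ S (P n) x := by
    intro x
    rw [hXL, Finset.mem_toList, Set.Finite.mem_toFinset]
    rfl
  set R : ℕ → ℕ → Prop := fun y z =>
    (∃ i : ℕ, ∃ j : ℕ, g y ∈ (P n).blk i ∧ (L i)[j]? = some y ∧ (L' i)[j]? = some z) ∨
    ((¬ S (P n) (g y) ∧ (g y % 3 = 0 ∨ g y ∈ XL) ∧ z = σ0 y) ∨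
    (¬ S (P n) (g y) ∧ (g y % 3 ≠ 0 ∧ g y ∉ XL) ∧ z = σ1 y)) with hR
  have cmod : Computable fun x : ℕ × ℕ => g x.1 % 3 :=
    Primrec.nat_mod.to_comp.comp (hg.comp Computable.fst) (Computable.const 3)
  have hre : REPred fun x : ℕ × ℕ => R x.1 x.2 := by
    refine or ?_ (or ?_ ?_)
    · refine exN (p := fun (x : ℕ × ℕ) i => ∃ j : ℕ, g x.1 ∈ (P n).blk i ∧
        (L i)[j]? = some x.1 ∧ (L' i)[j]? = some x.2) ?_
      refine exN (p := fun (x : (ℕ × ℕ) × ℕ) j => g x.1.1 ∈ (P n).blk x.2 ∧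
        (L x.2)[j]? = some x.1.1 ∧ (L' x.2)[j]? = some x.1.2) ?_
      refine and (mem_list (hg.comp (by fun_prop)) ((P n).comp.comp (by fun_prop))) (and ?_ ?_)
      · exact eq (cgetElem (cL.comp (by fun_prop)) (by fun_prop)) (by fun_prop)
      · exact eq (cgetElem (cL'.comp (by fun_prop)) (by fun_prop)) (by fun_prop)
    · refine and (comp (notS_re h (P n)) (hg.comp Computable.fst)) (and (or ?_ ?_) ?_)
      · exact eq cmod (Computable.const 0)
      · exact mem_list (hg.comp Computable.fst) (Computable.const XL)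
      · exact eq Computable.snd (c0.comp Computable.fst)
    · refine and (comp (notS_re h (P n)) (hg.comp Computable.fst)) (and (and ?_ ?_) ?_)
      · exact ne cmod (Computable.const 0)
      · exact not_mem_list (hg.comp Computable.fst) (Computable.const XL)
      · exact eq Computable.snd (c1.comp Computable.fst)
  have hex : ∀ y, ∃ z, R y z := by
    intro y
    by_cases hS : S (P n) (g y)
    · obtain ⟨i, hi⟩ := hS
      have hy : y ∈ L i := ((hL i).2.2 y).2 hi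
      obtain ⟨j, hj, hj2⟩ := List.getElem_of_mem hy
      have hj' : j < (L' i).length := by
        rw [(hL' i).2.1]
        rw [(hL i).2.1] at hj
        omega
      refine ⟨(L' i)[j], Or.inl ⟨i, j, hi, ?_, ?_⟩⟩
      · rw [List.getElem?_eq_getElem hj, hj2]
      · rw [List.getElem?_eq_getElem hj']
    · by_cases h3 : g y % 3 = 0 ∨ g y ∈ XL
      · exact ⟨σ0 y, Or.inr (Or.inl ⟨hS, h3, rfl⟩)⟩
      · push Not at h3
        exact ⟨σ1 y, Or.inr (Or.inr ⟨hS, h3, rfl⟩)⟩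
  obtain ⟨f, hf, hf2⟩ := unif_total hre hex
  have inS : ∀ {i j z : ℕ}, (L' i)[j]? = some z → g' z ∈ (P n).blk i := by
    intro i j z hz
    exact ((hL' i).2.2 z).1 (List.mem_of_getElem? hz)
  refine ⟨f, hf, ?_, ?_⟩
  · intro y y' hyy
    rcases hf2 y with ⟨i, j, a1, a2, a3⟩ | ⟨a1, a2, a3⟩ | ⟨a1, a2, a3⟩ <;>
    rcases hf2 y' with ⟨i', j', b1, b2, b3⟩ | ⟨b1, b2, b3⟩ | ⟨b1, b2, b3⟩
    · have h3 := inS a3
      have h4 := inS b3
      rw [hyy] at h3
      have := blk_inj _ h3 h4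
      subst this
      rw [hyy] at a3
      have h5 : j = j' := by
        have hj : j < (L' i).length := by
          by_contra hc
          rw [List.getElem?_eq_none (not_lt.1 hc)] at a3
          exact absurd a3 (by simp)
        have h6 := (List.nodup_iff_getElem?_ne_getElem?.1 (hL' i).1)
        by_contra hne
        rcases lt_or_gt_of_ne hne with hlt | hlt
        · have hj' : j' < (L' i).length := by
            by_contra hc
            rw [List.getElem?_eq_none (not_lt.1 hc)] at b3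
            exact absurd b3 (by simp)
          exact h6 j j' hlt hj' (a3.trans b3.symm)
        · exact h6 j' j hlt hj (b3.trans a3.symm)
      subst h5
      rw [a2] at b2
      exact Option.some_inj.1 b2
    · exfalso
      have h3 := inS a3
      rw [hyy, b3] at h3
      exact (h0 y').2 ⟨i, h3⟩
    · exfalso
      have h3 := inS a3
      rw [hyy, b3] at h3
      exact (h1 y').2 ⟨i, h3⟩
    · exfalso
      have h3 := inS b3
      rw [← hyy, a3] at h3
      exact (h0 y).2 ⟨i', h3⟩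
    · rw [a3, b3] at hyy
      exact m0.injective hyy
    · exfalso
      rw [a3, b3] at hyy
      exact hσ0 y (hyy ▸ hσ1 y')
    · exfalso
      have h3 := inS b3
      rw [← hyy, a3] at h3
      exact (h1 y).2 ⟨i', h3⟩
    · exfalso
      rw [a3, b3] at hyy
      exact hσ0 y' (hyy ▸ hσ1 y)
    · rw [a3, b3] at hyy
      exact m1.injective hyy
  · intro y
    rw [hB]
    rcases hf2 y with ⟨i, j, a1, a2, a3⟩ | ⟨a1, a2, a3⟩ | ⟨a1, a2, a3⟩
    · rw [hC]
      have h3 := inS a3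
      exact not_congr ⟨h.homog a1 h3, h.homog h3 a1⟩
    · rw [a3]
      refine iff_of_false (fun h3 => h3 ?_) (hσ0 y)
      rcases a2 with a2 | a2
      · exact Or.inl a2
      · exact ((memXL _).1 a2).1
    · rw [a3]
      refine iff_of_true (fun h3 => ?_) (hσ1 y)
      exact a2.2 ((memXL _).2 ⟨h3, a2.1, a1⟩)

end

end Pool.Agent.X43.BF
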