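import Mathlib
import Pool.Agent.X43.BF.C

/-!
Sets of intermediate weight, and the order of the one-one degrees.
-/

set_option autoImplicit false

namespace Pool.Agent.X43.BF

open Pool.Agent.Helper446.RE Encodable

section tools

variable {α : Type*} [Primcodable α]

theorem cdiv' {f g : α → ℕ} (hf : Computable f) (hg : Computable g) :
    Computable (fun x => f x / g x) := Primrec.nat_div.to_comp.comp hf hg

theorem cmod' {f g : α → ℕ} (hf : Computable f) (hg : Computable g) :
    Computable (fun x => f x % g x) := Primrec.nat_mod.to_comp.comp hf hg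

end tools

theorem div_eq {a k m : ℕ} (hm : m < k + 1) : (a * (k + 1) + m) / (k + 1) = a := by
  rw [mul_comm, Nat.mul_add_div (by omega), Nat.div_eq_of_lt hm, add_zero]

theorem mod_eq {a k m : ℕ} (hm : m < k + 1) : (a * (k + 1) + m) % (k + 1) = m := by
  rw [mul_comm, Nat.mul_add_mod, Nat.mod_eq_of_lt hm]

theorem Cst.uniq {p : Cond} {g : ℕ → ℕ} {K K' : ℕ} (h1 : Cst p g K) (h2 : Cst p g K') :
    K = K' := by
  obtain ⟨Y, hY, hY2⟩ := h1 0
  obtain ⟨Z, hZ, hZ2⟩ := h2 0
  have : Y = Z := by ext y; rw [hY2, hZ2]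
  rw [← hY, ← hZ, this]

theorem lt_mono {q p : Cond} (hle : Le q p) {g g' : ℕ → ℕ} {K K' K1 K1' : ℕ} (h1 : Cst p g K)
    (h2 : Cst p g' K') (h3 : Cst q g K1) (h4 : Cst q g' K1') (hlt : K < K') : K1 < K1' := by
  obtain ⟨K2, h5, h6⟩ := h1.mono hle
  obtain ⟨K2', h7, h8⟩ := h2.mono hle
  rw [h5.uniq h3] at h6
  rw [h7.uniq h4] at h8
  have hq := q.Npos
  have h9 : K1 * p.N < K1' * p.N := by
    rw [h6, h8]
    exact Nat.mul_lt_mul_of_pos_right hlt hq
  exact Nat.lt_of_mul_lt_mul_right h9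

section

variable {P : ℕ → Cond} (h : Gen P)

include h

theorem exists_E (n k : ℕ) (hk : 1 ≤ k) : ∃ (E : Set ℕ) (g h' : ℕ → ℕ), Computable g ∧ BO g ∧
    (∀ y, y ∈ E ↔ g y ∉ MM P) ∧ Computable h' ∧ BO h' ∧ (∀ x, x ∉ MM P ↔ h' x ∈ E) ∧
    Cst (P n) g k := by
  classical
  set p := P n with hp
  -- first elements
  set fe : ℕ → ℕ := fun i => (p.blk i).getD 0 0 with hfe
  have fe_mem : ∀ i, fe i ∈ p.blk i := by
    intro i
    have h1 := p.len i
    have h2 := p.Npos
    have h3 : 0 < (p.blk i).length := by omega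
    show (p.blk i).getD 0 0 ∈ p.blk i
    rw [List.getD_eq_getElem _ _ h3]
    exact List.getElem_mem h3
  have cfe : Computable fe := (Primrec.list_getD 0).to_comp.comp p.comp (Computable.const 0)
  set g : ℕ → ℕ := fun y => if y % (k + 1) < k then fe (y / (k + 1)) else
    3 * (y / (k + 1) / 2) + y / (k + 1) % 2 with hg
  have cg : Computable g := by
    have c1 : Computable fun y : ℕ => y / (k + 1) := cdiv' Computable.id (Computable.const _)
    refine cite (cp_lt (cmod' Computable.id (Computable.const _)) (Computable.const k)) ?_ ?_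
    · exact cfe.comp c1
    · exact cadd (cmul (Computable.const 3) (cdiv' c1 (Computable.const 2)))
        (cmod' c1 (Computable.const 2))
  have g_lt : ∀ a m, m < k → g (a * (k + 1) + m) = fe a := by
    intro a m hm
    show (if _ then _ else _) = _
    rw [mod_eq (by omega), div_eq (by omega), if_pos hm]
  have g_eq : ∀ a, g (a * (k + 1) + k) = 3 * (a / 2) + a % 2 := by
    intro a
    show (if _ then _ else _) = _
    rw [mod_eq (by omega), div_eq (by omega), if_neg (lt_irrefl k)]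
  have dec : ∀ y, ∃ a m, y = a * (k + 1) + m ∧ m < k + 1 := by
    intro y
    refine ⟨y / (k + 1), y % (k + 1), ?_, Nat.mod_lt _ (by omega)⟩
    rw [mul_comm]
    exact (Nat.div_add_mod y (k + 1)).symm
  have bg : BO g := by
    refine ⟨k + 1, fun x Y hY => ?_⟩
    rcases Y.eq_empty_or_nonempty with rfl | ⟨y0, hy0⟩
    · simp
    obtain ⟨a0, m0, rfl, hm0⟩ := dec y0
    have hx0 := hY _ hy0
    have hsub : Y ⊆ Finset.Ico (a0 * (k + 1)) (a0 * (k + 1) + (k + 1)) := by
      intro y hy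
      obtain ⟨a, m, rfl, hm⟩ := dec y
      have hx := hY _ hy
      have ha : a = a0 := by
        rcases Nat.lt_succ_iff_lt_or_eq.1 hm with h1 | h1 <;>
        rcases Nat.lt_succ_iff_lt_or_eq.1 hm0 with h2 | h2
        · rw [g_lt _ _ h1] at hx
          rw [g_lt _ _ h2] at hx0
          have h3 := fe_mem a
          have h4 := fe_mem a0
          rw [hx] at h3
          rw [hx0] at h4
          exact blk_inj p h3 h4
        · exfalso
          rw [g_lt _ _ h1] at hx
          rw [h2, g_eq] at hx0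
          have h3 := p.mod _ _ (fe_mem a)
          omega
        · exfalso
          rw [g_lt _ _ h2] at hx0
          rw [h1, g_eq] at hx
          have h3 := p.mod _ _ (fe_mem a0)
          omega
        · rw [h1, g_eq] at hx
          rw [h2, g_eq] at hx0
          omega
      subst ha
      rw [Finset.mem_Ico]
      omega
    have h5 := Finset.card_le_card hsub
    rw [Nat.card_Ico] at h5
    omega
  have hcst : Cst p g k := by
    intro i
    refine ⟨Finset.Ico (i * (k + 1)) (i * (k + 1) + k), by rw [Nat.card_Ico]; omega,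
      fun y => ?_⟩
    obtain ⟨a, m, rfl, hm⟩ := dec y
    rw [Finset.mem_Ico]
    constructor
    · rintro ⟨h1, h2⟩
      have ha : a = i := by
        rcases lt_trichotomy a i with h3 | h3 | h3
        · have := Nat.mul_le_mul_right (k + 1) (show a + 1 ≤ i from h3)
          rw [Nat.add_mul] at this
          omega
        · exact h3
        · have := Nat.mul_le_mul_right (k + 1) (show i + 1 ≤ a from h3)
          rw [Nat.add_mul] at this
          omega
      subst ha
      rw [g_lt _ _ (by omega)]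
      exact fe_mem a
    · intro h1
      rcases Nat.lt_succ_iff_lt_or_eq.1 hm with h2 | h2
      · rw [g_lt _ _ h2] at h1
        have := blk_inj p (fe_mem a) h1
        subst this
        omega
      · rw [h2, g_eq] at h1
        have := p.mod _ _ h1
        omega
  -- the index function
  have hixre : REPred fun x : ℕ × ℕ => x.1 ∈ p.blk x.2 ∨ ∀ i < x.1 + 1, x.1 ∉ p.blk i := by
    refine or (mem_list Computable.fst (p.comp.comp Computable.snd)) ?_
    refine all_lt (p := fun (x : ℕ × ℕ) i => x.1 ∉ p.blk i) ?_ (by fun_prop)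
    exact not_mem_list (by fun_prop) (p.comp.comp Computable.snd)
  obtain ⟨ix, cix, hix⟩ := unif_total (r := fun x i : ℕ => x ∈ p.blk i ∨
      ∀ i < x + 1, x ∉ p.blk i) hixre (fun x => by
        by_cases hS : ∃ i, x ∈ p.blk i
        · obtain ⟨i, hi⟩ := hS; exact ⟨i, Or.inl hi⟩
        · push Not at hS; exact ⟨0, Or.inr fun i _ => hS i⟩)
  have ix_mem : ∀ x, S p x → x ∈ p.blk (ix x) := by
    rintro x ⟨i, hi⟩
    rcases hix x with h1 | h1
    · exact h1
    · exact absurd hi (h1 i (by have := le_of_mem p _ _ hi; omega))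
  have cS : ComputablePred fun x => S p x := by
    refine cp_of_re ?_ (notS_re h p)
    exact exN (p := fun x i => x ∈ p.blk i) (mem_list Computable.fst (p.comp.comp Computable.snd))
  set XL : List ℕ := (h.fin n).toFinset.toList with hXL
  have memXL : ∀ x, x ∈ XL ↔ x ∈ MM P ∧ x % 3 ≠ 0 ∧ ¬ S (P n) x := by
    intro x
    rw [hXL, Finset.mem_toList, Set.Finite.mem_toFinset]
    rfl
  set kn : ℕ → Bool := fun x => decide (x % 3 = 0) || decide (x ∈ XL) with hkn
  have ckn : Computable kn := by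
    refine cor (cp_eq (cmod' Computable.id (Computable.const 3)) (Computable.const 0)).decide ?_
    exact (cp_mem Computable.id (Computable.const XL)).decide
  set h' : ℕ → ℕ := fun x => bif decide (S p x) then ix x * (k + 1) + 0 else
    (bif kn x then (2 * x) * (k + 1) + k else (2 * x + 1) * (k + 1) + k) with hh'
  have ch' : Computable h' := by
    refine ccond cS.decide ?_ (ccond ckn ?_ ?_)
    · exact cadd (cmul cix (Computable.const _)) (Computable.const 0)
    · fun_prop
    · fun_prop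
  have h'_S : ∀ x, S p x → h' x = ix x * (k + 1) + 0 := by
    intro x hx
    show (bif decide (S p x) then _ else _) = _
    rw [decide_eq_true hx]
    rfl
  have h'_k : ∀ x, ¬ S p x → kn x = true → h' x = (2 * x) * (k + 1) + k := by
    intro x hx hx2
    show (bif decide (S p x) then _ else (bif kn x then _ else _)) = _
    rw [decide_eq_false hx, hx2]
    rfl
  have h'_n : ∀ x, ¬ S p x → kn x = false → h' x = (2 * x + 1) * (k + 1) + k := by
    intro x hx hx2
    show (bif decide (S p x) then _ else (bif kn x then _ else _)) = _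
    rw [decide_eq_false hx, hx2]
    rfl
  have bh' : BO h' := by
    refine ⟨p.N + 1, fun z Y hY => ?_⟩
    have hsub : Y ⊆ (p.blk (z / (k + 1))).toFinset ∪ {z / (k + 1) / 2} := by
      intro x hx
      have hz := hY x hx
      rw [Finset.mem_union, List.mem_toFinset, Finset.mem_singleton]
      by_cases hS : S p x
      · left
        rw [h'_S x hS] at hz
        rw [← hz, div_eq (by omega)]
        exact ix_mem x hS
      · right
        cases hkx : kn x
        · rw [h'_n x hS hkx] at hz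
          rw [← hz, div_eq (by omega)]
          omega
        · rw [h'_k x hS hkx] at hz
          rw [← hz, div_eq (by omega)]
          omega
    refine (Finset.card_le_card hsub).trans ((Finset.card_union_le _ _).trans ?_)
    rw [Finset.card_singleton]
    have := (p.blk (z / (k + 1))).toFinset_card_le
    rw [p.len] at this
    omega
  refine ⟨{y | g y ∉ MM P}, g, h', cg, bg, fun y => Iff.rfl, ch', bh', fun x => ?_, hcst⟩
  show x ∉ MM P ↔ g (h' x) ∉ MM P
  by_cases hS : S p x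
  · rw [h'_S x hS, g_lt _ _ (by omega)]
    exact not_congr ⟨h.homog (ix_mem x hS) (fe_mem _), h.homog (fe_mem _) (ix_mem x hS)⟩
  · cases hkx : kn x
    · rw [h'_n x hS hkx, g_eq]
      have e1 : (2 * x + 1) / 2 = x := by omega
      have e2 : (2 * x + 1) % 2 = 1 := by omega
      rw [e1, e2]
      refine iff_of_true (fun hM => ?_) (mod1 h (by omega))
      have h1 : kn x = true := by
        show (decide (x % 3 = 0) || decide (x ∈ XL)) = true
        by_cases h0 : x % 3 = 0
        · rw [decide_eq_true h0]; rfl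
        · rw [decide_eq_true ((memXL x).2 ⟨hM, h0, hS⟩)]; simp
      rw [hkx] at h1
      exact absurd h1 (by decide)
    · rw [h'_k x hS hkx, g_eq]
      have e1 : 2 * x / 2 = x := by omega
      have e2 : 2 * x % 2 = 0 := by omega
      rw [e1, e2]
      have h1 : x % 3 = 0 ∨ x ∈ XL := by
        have h2 : (decide (x % 3 = 0) || decide (x ∈ XL)) = true := hkx
        rw [Bool.or_eq_true, decide_eq_true_eq, decide_eq_true_eq] at h2
        exact h2
      refine iff_of_false (fun hM => hM ?_) (fun hM => hM (Or.inl (by omega)))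
      rcases h1 with h1 | h1
      · exact Or.inl h1
      · exact ((memXL x).1 h1).1

theorem level {g h' : ℕ → ℕ} (hg : Computable g) (bg : BO g) (hh : Computable h') :
    ∃ n0, ∀ n ≥ n0, (∃ K, Cst (P n) g K) ∧ Sup (P n) (fun x => g (h' x)) 0 ∧
      Sup (P n) (fun x => g (h' x)) 1 := by
  obtain ⟨n1, h1⟩ := h.req g g hg hg
  obtain ⟨n2, h2⟩ := h.req _ _ (hg.comp hh) (hg.comp hh)
  refine ⟨max n1 n2, fun n hn => ⟨(h1 n (le_trans (le_max_left _ _) hn)).1 bg, ?_, ?_⟩⟩
  · exact (h2 n (le_trans (le_max_right _ _) hn)).2.1.1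
  · exact (h2 n (le_trans (le_max_right _ _) hn)).2.1.2

end

/-- The data of a set bounded finite-one equivalent to the generic set. -/
structure Dat (P : ℕ → Cond) (B : Set ℕ) (g h' : ℕ → ℕ) : Prop where
  cg : Computable g
  bg : BO g
  hB : ∀ y, y ∈ B ↔ g y ∉ MM P
  ch : Computable h'
  bh : BO h'
  hA : ∀ x, x ∉ MM P ↔ h' x ∈ B

theorem red_of_le {P : ℕ → Cond} (h : Gen P) {B C : Set ℕ} {g h1 g' h1' : ℕ → ℕ}
    (dB : Dat P B g h1) (dC : Dat P C g' h1') {n K K' : ℕ} (hK : Cst (P n) g K)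
    (hK' : Cst (P n) g' K') (hle : K ≤ K') (s0 : Sup (P n) (fun x => g' (h1' x)) 0)
    (s1 : Sup (P n) (fun x => g' (h1' x)) 1) : Red1 B C :=
  cmp h n dB.cg dB.hB dC.cg dC.hB dC.ch dC.bh dC.hA hK hK' hle s0 s1

theorem not_red {P : ℕ → Cond} (h : Gen P) {B C : Set ℕ} {g h1 g' h1' : ℕ → ℕ}
    (dB : Dat P B g h1) (dC : Dat P C g' h1') {n K K' : ℕ} (hK : Cst (P n) g K)
    (hK' : Cst (P n) g' K') (hlt : K' < K) : ¬ Red1 B C := by
  rintro ⟨f, hf, fi, hf2⟩
  obtain ⟨n1, hn1⟩ := rigid h dB.cg dB.bg dB.hB dC.cg dC.bg dC.hB hf fi hf2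
  obtain ⟨K1, hK1, -⟩ := hK.mono (h.le (le_max_left n n1))
  obtain ⟨K1', hK1', -⟩ := hK'.mono (h.le (le_max_left n n1))
  have h2 := hn1 _ (le_max_right n n1) _ _ hK1 hK1'
  have h3 := lt_mono (h.le (le_max_left n n1)) hK' hK hK1' hK1 hlt
  omega

theorem main : ∃ A : Set ℕ,
    (∀ B C : Set ℕ, RedB B A → RedB A B → RedB C A → RedB A C → Red1 B C ∨ Red1 C B) ∧
    (∀ B C : Set ℕ, RedB B A → RedB A B → RedB C A → RedB A C → Red1 B C → ¬ Red1 C B →
      ∃ E : Set ℕ, RedB E A ∧ RedB A E ∧ Red1 B E ∧ ¬ Red1 E B ∧ Red1 E C ∧ ¬ Red1 C E) ∧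
    ∃ B C : Set ℕ, RedB B A ∧ RedB A B ∧ RedB C A ∧ RedB A C ∧ ¬ Red1 C B := by
  obtain ⟨P, h⟩ := exists_gen
  have dat : ∀ B : Set ℕ, RedB B (MM P)ᶜ → RedB (MM P)ᶜ B → ∃ g h', Dat P B g h' := by
    rintro B ⟨g, cg, bg, hg⟩ ⟨h', ch, bh, hh⟩
    exact ⟨g, h', cg, bg, hg, ch, bh, hh⟩
  have tad : ∀ (B : Set ℕ) (g h' : ℕ → ℕ), Dat P B g h' → RedB B (MM P)ᶜ ∧ RedB (MM P)ᶜ B :=
    fun B g h' d => ⟨⟨g, d.cg, d.bg, d.hB⟩, ⟨h', d.ch, d.bh, d.hA⟩⟩
  refine ⟨(MM P)ᶜ, ?_, ?_, ?_⟩
  · intro B C hB1 hB2 hC1 hC2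
    obtain ⟨g, h1, dB⟩ := dat B hB1 hB2
    obtain ⟨g', h1', dC⟩ := dat C hC1 hC2
    obtain ⟨n1, e1⟩ := level h dB.cg dB.bg dB.ch
    obtain ⟨n2, e2⟩ := level h dC.cg dC.bg dC.ch
    obtain ⟨⟨K, hK⟩, s0, s1⟩ := e1 _ (le_max_left n1 n2)
    obtain ⟨⟨K', hK'⟩, t0, t1⟩ := e2 _ (le_max_right n1 n2)
    rcases le_total K K' with hle | hle
    · exact Or.inl (red_of_le h dB dC hK hK' hle t0 t1)
    · exact Or.inr (red_of_le h dC dB hK' hK hle s0 s1)
  · intro B C hB1 hB2 hC1 hC2 hBC hCB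
    obtain ⟨g, h1, dB⟩ := dat B hB1 hB2
    obtain ⟨g', h1', dC⟩ := dat C hC1 hC2
    obtain ⟨n1, e1⟩ := level h dB.cg dB.bg dB.ch
    obtain ⟨n2, e2⟩ := level h dC.cg dC.bg dC.ch
    set n := max n1 n2 with hn
    obtain ⟨⟨K, hK⟩, s0, s1⟩ := e1 n (le_max_left n1 n2)
    obtain ⟨⟨K', hK'⟩, -, -⟩ := e2 n (le_max_right n1 n2)
    have hlt : K < K' := by
      by_contra hcon
      exact hCB (red_of_le h dC dB hK' hK (not_lt.1 hcon) s0 s1)
    obtain ⟨K1, hK1, q1⟩ := hK.mono (h.le (show n ≤ n + 1 by omega))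
    obtain ⟨K1', hK1', q2⟩ := hK'.mono (h.le (show n ≤ n + 1 by omega))
    have hgap : K1 + 2 ≤ K1' := by
      have g1 := h.grow n
      have g2 := (P n).Npos
      have g3 : (K1 + 2) * (P n).N ≤ K1' * (P n).N := by
        have g4 : (K + 1) * (P (n + 1)).N ≤ K' * (P (n + 1)).N := Nat.mul_le_mul_right _ hlt
        rw [q2, Nat.add_mul, q1]
        rw [Nat.add_mul] at g4
        omega
      exact Nat.le_of_mul_le_mul_right g3 g2
    obtain ⟨E, gE, hE, a1, a2, a3, a4, a5, a6, hkE⟩ := exists_E h (n + 1) (K1 + 1) (by omega)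
    have dE : Dat P E gE hE := ⟨a1, a2, a3, a4, a5, a6⟩
    obtain ⟨n3, e3⟩ := level h dE.cg dE.bg dE.ch
    set M := max (n + 1) n3 with hM
    have leM : Le (P M) (P (n + 1)) := h.le (le_max_left _ _)
    have hnM : n + 1 ≤ M := le_max_left _ _
    obtain ⟨⟨kM, hkM⟩, u0, u1⟩ := e3 M (le_max_right _ _)
    obtain ⟨⟨KM, hKM⟩, -, -⟩ := e1 M ((le_max_left n1 n2).trans (by omega))
    obtain ⟨⟨KM', hKM'⟩, t0, t1⟩ := e2 M ((le_max_right n1 n2).trans (by omega))
    have l1 : KM < kM := lt_mono leM hK1 hkE hKM hkM (by omega)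
    have l2 : kM < KM' := lt_mono leM hkE hK1' hkM hKM' (by omega)
    obtain ⟨b1, b2⟩ := tad E gE hE dE
    exact ⟨E, b1, b2, red_of_le h dB dE hKM hkM l1.le u0 u1, not_red h dE dB hkM hKM l1,
      red_of_le h dE dC hkM hKM' l2.le t0 t1, not_red h dC dE hKM' hkM l2⟩
  · obtain ⟨E, gE, hE, a1, a2, a3, a4, a5, a6, hkE⟩ := exists_E h 0 1 le_rfl
    obtain ⟨G, gG, hG, b1, b2, b3, b4, b5, b6, hkG⟩ := exists_E h 0 2 (by norm_num)
    have dE : Dat P E gE hE := ⟨a1, a2, a3, a4, a5, a6⟩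
    have dG : Dat P G gG hG := ⟨b1, b2, b3, b4, b5, b6⟩
    obtain ⟨c1, c2⟩ := tad E gE hE dE
    obtain ⟨c3, c4⟩ := tad G gG hG dG
    exact ⟨E, G, c1, c2, c3, c4, not_red h dG dE hkG hkE (by norm_num)⟩

end Pool.Agent.X43.BF
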